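import Mathlib

set_option autoImplicit false

namespace Pool.Agent.Results.MP_48b99b_co.Full

open Finset

/-- `c` is a FAT `k`-colouring of `G` with parameter `α`. -/
def IsFAT {V : Type} [Fintype V] (G : SimpleGraph V) [DecidableRel G.Adj] (k : ℕ) (c : V → Fin k)
    (α : ℝ) : Prop :=
  0 ≤ α ∧ α ≤ 1 ∧ ∀ (v : V) (i : Fin k),
    (((G.neighborFinset v).filter fun w => c w = i).card : ℝ) =
      if c v = i then (1 - ((k : ℝ) - 1) * α) * G.degree v else α * G.degree v

/-- The partition `P` is the partition into colour classes of a FAT colouring. -/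
def FatP {V : Type} [Fintype V] (G : SimpleGraph V) [DecidableRel G.Adj] (P : Setoid V) : Prop :=
  ∃ (k : ℕ) (c : V → Fin k) (α : ℝ), IsFAT G k c α ∧ ∀ x y, P x y ↔ c x = c y

/-- Irreducible: FAT, and every finer FAT partition is equal to it. -/
def Irr {V : Type} [Fintype V] (G : SimpleGraph V) [DecidableRel G.Adj] (P : Setoid V) : Prop :=
  FatP G P ∧ ∀ Q : Setoid V, FatP G Q → (∀ x y, Q x y → P x y) → Q = P

/-- Some automorphism of `G` maps the partition `P` onto `Q`. -/
def Same {V : Type} (G : SimpleGraph V) (P Q : Setoid V) : Prop :=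
  ∃ φ : G ≃g G, ∀ x y, P x y ↔ Q (φ x) (φ y)

abbrev W (a : ℕ) : Type := (Bool ⊕ Fin a) ⊕ (Fin a × Bool) ⊕ (Fin a × Bool)

variable {a : ℕ}

def R : W a → W a → Bool
  | .inl (.inl _), .inl (.inr _) => true
  | .inl (.inl _), .inr (.inl p) => !p.2
  | .inr (.inl p), .inr (.inr q) => p.1 == q.1
  | _, _ => false

def H (a : ℕ) : SimpleGraph (W a) where
  Adj x y := R x y = true ∨ R y x = true
  symm := ⟨fun _ _ h => h.symm⟩
  loopless := ⟨fun x h => by rcases x with (x | x) | x | x <;> simp [R] at h⟩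

instance : DecidableRel (H a).Adj := fun x y => inferInstanceAs (Decidable (R x y = true ∨ R y x = true))

abbrev hub (b : Bool) : W a := .inl (.inl b)
abbrev vA (i : Fin a) : W a := .inl (.inr i)
abbrev vw (i : Fin a) (b : Bool) : W a := .inr (.inl (i, b))
abbrev vx (i : Fin a) (b : Bool) : W a := .inr (.inr (i, b))

def S (f : W a → ℝ) : W a → ℝ
  | .inl (.inl _) => ∑ i, f (vA i) + ∑ i, f (vw i false)
  | .inl (.inr _) => f (hub true) + f (hub false)
  | .inr (.inl (i, false)) => f (hub true) + f (hub false) + (f (vx i true) + f (vx i false))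
  | .inr (.inl (i, true)) => f (vx i true) + f (vx i false)
  | .inr (.inr (i, _)) => f (vw i true) + f (vw i false)

theorem sum_nbr (f : W a → ℝ) (v : W a) : ∑ w ∈ (H a).neighborFinset v, f w = S f v := by
  rw [SimpleGraph.neighborFinset_eq_filter, sum_filter]
  rcases v with (b | i) | ⟨i, _ | _⟩ | ⟨i, b⟩ <;>
    simp [H, R, S, Fintype.sum_sum_type, Fintype.sum_prod_type, sum_add_distrib]

theorem cnt {k : ℕ} (c : W a → Fin k) (v : W a) (l : Fin k) :
    ((((H a).neighborFinset v).filter fun w => c w = l).card : ℝ) =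
      S (fun w => if c w = l then 1 else 0) v := by
  rw [← sum_nbr, sum_boole]

theorem deg (v : W a) : ((H a).degree v : ℝ) = S (fun _ => 1) v := by
  rw [← sum_nbr]; simp

def Prp (c : W a → Fin 2) : Prop := ∀ x y, (H a).Adj x y → c x ≠ c y

def nA (c : W a → Fin 2) (l : Fin 2) : ℕ := (univ.filter fun i => c (vA i) = l).card
def nW (c : W a → Fin 2) (l : Fin 2) : ℕ := (univ.filter fun i => c (vw i false) = l).card

def Nul (c : W a → Fin 2) : Prop := c (hub true) ≠ c (hub false) ∧
  (∀ i, c (vx i true) ≠ c (vx i false)) ∧ (∀ i, c (vw i true) ≠ c (vw i false)) ∧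
  ∀ l, nA c l + nW c l = a

theorem f2 : ∀ p q l : Fin 2, p ≠ q → (p = l ∧ q ≠ l) ∨ (p ≠ l ∧ q = l) := by decide

theorem fat_prp {c : W a → Fin 2} (h : Prp c) : IsFAT (H a) 2 c 1 := by
  refine ⟨zero_le_one, le_rfl, fun v l => ?_⟩
  split_ifs with e
  · rw [filter_eq_empty_iff.2 fun w hw e' => h v w (by simpa using hw) (e.trans e'.symm)]
    norm_num
  · rw [filter_true_of_mem fun w hw => by
      have := f2 _ _ l (h v w (by simpa using hw)); tauto]
    simp

theorem fat_nul {c : W a → Fin 2} (h : Nul c) : IsFAT (H a) 2 c (1 / 2) := by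
  refine ⟨by norm_num, by norm_num, fun v l => ?_⟩
  have key : ∀ p q : Fin 2, p ≠ q →
      ((if p = l then 1 else 0) + (if q = l then 1 else 0) : ℝ) = 1 := by
    intro p q e
    rcases f2 p q l e with e | e <;> simp [e.1, e.2]
  rw [show (if c v = l then (1 - (((2 : ℕ) : ℝ) - 1) * (1 / 2)) * ((H a).degree v : ℝ)
    else 1 / 2 * (H a).degree v) = 1 / 2 * (H a).degree v by split_ifs <;> norm_num, cnt, deg]
  rcases v with (b | i) | ⟨i, _ | _⟩ | ⟨i, b⟩ <;> simp only [S]
  · have : (nA c l : ℝ) + nW c l = a := by exact_mod_cast h.2.2.2 l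
    simp only [sum_boole, sum_const, card_univ, Fintype.card_fin, nsmul_eq_mul, mul_one]
    unfold nA nW at this
    linarith
  · rw [key _ _ h.1]; norm_num
  · rw [key _ _ h.1, key _ _ (h.2.1 i)]; norm_num
  · rw [key _ _ (h.2.1 i)]; norm_num
  · rw [key _ _ (h.2.2.1 i)]; norm_num

theorem conn (ha : 0 < a) : (H a).Connected := by
  have k0 : ∀ b i, (H a).Reachable (hub b) (vA i) := fun b i =>
    SimpleGraph.Adj.reachable (by simp [H, R])
  have k1 : ∀ b i, (H a).Reachable (hub b) (vw i false) := fun b i =>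
    SimpleGraph.Adj.reachable (by simp [H, R])
  have k2 : ∀ i b b', (H a).Reachable (vw i b) (vx i b') := fun i b b' =>
    SimpleGraph.Adj.reachable (by simp [H, R])
  refine (SimpleGraph.connected_iff_exists_forall_reachable _).2 ⟨hub true, fun v => ?_⟩
  rcases v with (b | i) | ⟨i, _ | _⟩ | ⟨i, b⟩
  · exact (k0 _ ⟨0, ha⟩).trans (k0 _ _).symm
  · exact k0 _ _
  · exact k1 _ _
  · exact ((k1 _ _).trans (k2 _ _ true)).trans (k2 _ _ _).symm
  · exact (k1 _ _).trans (k2 _ _ _)

theorem classify (ha : 0 < a) {P : Setoid (W a)} (h : FatP (H a) P) : (∀ x y, P x y) ∨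
    ∃ c : W a → Fin 2, (∀ x y, P x y ↔ c x = c y) ∧ (Prp c ∨ Nul c) := by
  obtain ⟨k, c, α, ⟨h0, h1, h⟩, hP⟩ := h
  by_cases hc : ∀ u v, (H a).Adj u v → c u = c v
  · refine Or.inl fun x y => (hP x y).2 ?_
    obtain ⟨w⟩ := conn ha x y
    induction w with
    | nil => rfl
    | cons h _ ih => exact (hc _ _ h).trans ih
  right
  push Not at hc
  obtain ⟨u, v, huv, hne⟩ := hc
  have hpos : 0 < α := by
    have e := h u (c v)
    have : 0 < (((H a).neighborFinset u).filter fun w => c w = c v).card :=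
      card_pos.2 ⟨v, by simp [huv]⟩
    have : (0 : ℝ) < (((H a).neighborFinset u).filter fun w => c w = c v).card := by
      exact_mod_cast this
    rw [e, if_neg hne] at this
    exact lt_of_le_of_ne h0 fun z => by simp [← z] at this
  have hprop : 1 - ((k : ℝ) - 1) * α = 0 → ∀ x y, (H a).Adj x y → c x ≠ c y := by
    intro z x y hxy e
    have := h x (c x)
    rw [if_pos rfl, z, zero_mul, Nat.cast_eq_zero, card_eq_zero, filter_eq_empty_iff] at this
    exact this (x := y) (by simpa using hxy) e.symm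
  simp only [cnt, deg] at h
  have hA := h (vA ⟨0, ha⟩)
  simp only [S] at hA
  obtain ⟨l, hl⟩ : ∃ l, c (vA ⟨0, ha⟩) ≠ l := by
    by_cases e : c (vA ⟨0, ha⟩) = c u
    · exact ⟨c v, e ▸ hne⟩
    · exact ⟨c u, e⟩
  have hk2 : 2 ≤ k := Fin.nontrivial_iff_two_le.1 ⟨_, _, hl⟩
  have hk2' : (2 : ℝ) ≤ k := by exact_mod_cast hk2
  have hα : α = 1 ∨ α = 1 / 2 := by
    have := hA l
    rw [if_neg hl] at this
    split_ifs at this
    · left; linarith
    · right; linarith
    · right; linarith
    · linarith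
  have hβ : 0 ≤ 1 - ((k : ℝ) - 1) * α := by
    have := hA (c (vA ⟨0, ha⟩))
    rw [if_pos rfl] at this
    split_ifs at this <;> linarith
  rcases hα with rfl | rfl
  · obtain rfl : k = 2 := by
      have : (k : ℝ) ≤ 2 := by linarith
      have : k ≤ 2 := by exact_mod_cast this
      omega
    exact ⟨c, hP, Or.inl (hprop (by norm_num))⟩
  have hk3 : k ≤ 3 := by
    have : (k : ℝ) ≤ 3 := by linarith
    exact_mod_cast this
  have two : ∀ t p q : W a, (∀ f, S f t = f p + f q) → c p ≠ c q := by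
    intro t p q e e'
    have := h t (c p)
    rw [e, e, if_pos rfl, if_pos e'.symm] at this
    split_ifs at this <;> linarith
  have hh := two (vA ⟨0, ha⟩) _ _ fun _ => rfl
  obtain rfl | rfl : k = 2 ∨ k = 3 := by omega
  · refine ⟨c, hP, Or.inr ⟨hh, fun i => two (vw i true) _ _ fun _ => rfl,
      fun i => two (vx i true) _ _ fun _ => rfl, fun l => ?_⟩⟩
    have := h (hub true) l
    simp only [S, sum_boole, sum_const, card_univ, Fintype.card_fin, nsmul_eq_mul, mul_one] at this
    have e : (nA c l : ℝ) + nW c l = a := by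
      unfold nA nW
      split_ifs at this <;> push_cast at this <;> linarith
    exact_mod_cast e
  · exfalso
    have hp := hprop (by norm_num)
    have := h (hub true) (c (hub false))
    rw [if_neg hh] at this
    simp only [S] at this
    rw [sum_eq_zero fun i _ => if_neg (hp _ _ (by simp [H, R])),
      sum_eq_zero fun i _ => if_neg (hp _ _ (by simp [H, R]))] at this
    have : (0 : ℝ) < a := by exact_mod_cast ha
    simp at *
    linarith

theorem irr (ha : 0 < a) {c : W a → Fin 2} (h : Prp c ∨ Nul c) : Irr (H a) (Setoid.ker c) := by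
  obtain ⟨p, q, hpq⟩ : ∃ p q, c p ≠ c q := by
    rcases h with h | h
    · exact ⟨hub true, vA ⟨0, ha⟩, h _ _ (by simp [H, R])⟩
    · exact ⟨_, _, h.1⟩
  refine ⟨?_, fun Q hQ hf => ?_⟩
  · rcases h with h | h
    · exact ⟨2, c, _, fat_prp h, fun _ _ => Iff.rfl⟩
    · exact ⟨2, c, _, fat_nul h, fun _ _ => Iff.rfl⟩
  rcases classify ha hQ with e | ⟨d, hd, -⟩
  · exact absurd (hf _ _ (e p q)) hpq
  refine Setoid.ext fun x y => ⟨hf x y, fun e => (hd x y).2 ?_⟩
  by_contra e'
  have e1 : d p ≠ d q := fun z => hpq (hf _ _ ((hd _ _).2 z))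
  have e : c x = c y := e
  rcases f2 _ _ (d p) e' with z | z
  · have z' : d y = d q := by have := f2 _ _ (d q) e'; have := f2 _ _ (d y) e1; tauto
    exact hpq ((hf _ _ ((hd _ _).2 z.1)).symm.trans (e.trans (hf _ _ ((hd _ _).2 z'))))
  · have z' : d x = d q := by have := f2 _ _ (d x) e1; tauto
    exact hpq ((hf _ _ ((hd _ _).2 z.2)).symm.trans (e.symm.trans (hf _ _ ((hd _ _).2 z'))))

def bip : W a → Fin 2
  | .inl (.inl _) => 0
  | .inr (.inr _) => 0
  | _ => 1

def cj (j : ℕ) : W a → Fin 2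
  | .inl (.inl b) => if b then 1 else 0
  | .inl (.inr i) => if i.val < j then 0 else 1
  | .inr (.inl (i, b)) => if (i.val < j ↔ b) then 0 else 1
  | .inr (.inr (_, b)) => if b then 1 else 0

theorem bip_prp : Prp (bip (a := a)) := by
  rintro ((x | x) | x | x) ((y | y) | y | y) <;> simp [H, R, bip]

theorem card_two (p : Fin a → Fin 2) :
    (univ.filter fun i => p i = 0).card + (univ.filter fun i => p i = 1).card = a := by
  have := card_filter_add_card_filter_not (s := univ) fun i => p i = 0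
  rw [card_univ, Fintype.card_fin] at this
  refine Eq.trans ?_ this
  congr 3
  ext i
  generalize p i = z
  revert z; decide

theorem nA_cj {j : ℕ} (hj : j ≤ a) : nA (cj (a := a) j) 0 = j ∧ nW (cj (a := a) j) 1 = j := by
  have : (univ.filter fun i : Fin a => i.val < j).card = j := by
    rw [Fin.card_filter_val_lt]; omega
  constructor
  · refine Eq.trans ?_ this
    unfold nA; congr 2; ext i; simp [cj]
  · refine Eq.trans ?_ this
    unfold nW; congr 2; ext i; simp [cj]

theorem cj_nul {j : ℕ} (hj : j ≤ a) : Nul (cj (a := a) j) := by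
  refine ⟨by simp [cj], fun i => by simp [cj], fun i => by by_cases h : i.val < j <;> simp [cj, h], ?_⟩
  have h1 := nA_cj hj
  have h2 := card_two fun i : Fin a => cj j (vA i)
  have h3 := card_two fun i : Fin a => cj j (vw i false)
  unfold nA nW at *
  rw [Fin.forall_fin_two]
  omega

theorem perm (p q : Fin a → Fin 2)
    (h : (univ.filter fun i => p i = 0).card = (univ.filter fun i => q i = 0).card) :
    ∃ σ : Equiv.Perm (Fin a), ∀ i, q (σ i) = p i := by
  have e : {i // p i = 0} ≃ {i // q i = 0} := Fintype.equivOfCardEq (by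
    simpa [Fintype.card_subtype] using h)
  refine ⟨e.extendSubtype, fun i => ?_⟩
  by_cases z : p i = 0
  · rw [z]; exact e.extendSubtype_mem i z
  · have := e.extendSubtype_not_mem i z
    omega

theorem bswap (p q : Bool → Fin 2) (hp : p true ≠ p false) (hq : q true ≠ q false) :
    ∃ ρ : Equiv.Perm Bool, ∀ b, q (ρ b) = p b := by
  by_cases e : q true = p true
  · exact ⟨1, by simp; omega⟩
  · exact ⟨Equiv.swap true false, by simp; omega⟩

theorem same_nul {c d : W a → Fin 2} (hc : Nul c) (hd : Nul d) (h : nA c 0 = nA d 0) :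
    ∃ φ : H a ≃g H a, ∀ x, d (φ x) = c x := by
  obtain ⟨σ, hσ⟩ := perm (fun i => c (vA i)) (fun i => d (vA i)) h
  obtain ⟨τ, hτ⟩ := perm (fun i => c (vw i false)) (fun i => d (vw i false)) (by
    have := hc.2.2.2 0; have := hd.2.2.2 0; unfold nA nW at *; omega)
  obtain ⟨ρ, hρ⟩ := bswap (fun b => c (hub b)) (fun b => d (hub b)) hc.1 hd.1
  choose π hπ using fun i => bswap (fun b => c (vx i b)) (fun b => d (vx (τ i) b)) (hc.2.1 i)
    (hd.2.1 _)
  refine ⟨⟨(ρ.sumCongr σ).sumCongr ((τ.prodCongr (Equiv.refl _)).sumCongr (τ.prodShear π)), ?_⟩, ?_⟩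
  · rintro ((x | x) | ⟨x, b⟩ | ⟨x, b⟩) ((y | y) | ⟨y, e⟩ | ⟨y, e⟩) <;> simp [H, R]
  · rintro ((x | x) | ⟨x, _ | _⟩ | ⟨x, b⟩)
    · exact hρ x
    · exact hσ x
    · exact hτ x
    · have h1 := hc.2.2.1 x
      have h2 := hd.2.2.1 (τ x)
      have h3 := hτ x
      change d (vw (τ x) true) = c (vw x true)
      omega
    · exact hπ x b

theorem result (b : ℕ) (hb : 1 ≤ b) :
    ∃ (V : Type) (_ : Fintype V) (G : SimpleGraph V) (_ : DecidableRel G.Adj), G.Connected ∧
      ∃ rep : Fin b → Setoid V, (∀ i, Irr G (rep i)) ∧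
        (∀ i j, Same G (rep i) (rep j) → i = j) ∧ ∀ P, Irr G P → ∃ i, Same G P (rep i) := by
  obtain rfl | ⟨n, rfl⟩ : b = 1 ∨ ∃ n, b = n + 2 := by
    rcases hb.eq_or_lt with h | h
    · exact Or.inl h.symm
    · exact Or.inr ⟨b - 2, by omega⟩
  · refine ⟨Unit, inferInstance, ⊥, inferInstance, SimpleGraph.connected_bot_iff.2
      ⟨inferInstance, inferInstance⟩, fun _ => ⊤, fun _ => ⟨⟨1, fun _ => 0, 0,
      ⟨le_rfl, zero_le_one, by simp⟩, by simp⟩, fun Q _ _ => Setoid.ext fun _ _ => by simp⟩,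
      fun _ _ _ => Subsingleton.elim _ _, fun P _ => ⟨0, SimpleGraph.Iso.refl, by simp⟩⟩
  have ha : 0 < 2 * n + 1 := by omega
  have hnp : ∀ j (φ : H (2 * n + 1) ≃g H (2 * n + 1)),
      ¬ ∀ x y, cj j x = cj j y → bip (φ x) = bip (φ y) := fun j φ h => by
    by_cases e : 0 < j
    · exact bip_prp _ _ (φ.map_adj_iff.2 (show (H _).Adj (hub false) (vA ⟨0, ha⟩) by simp [H, R]))
        (h _ _ (by simp [cj, e]))
    · exact bip_prp _ _ (φ.map_adj_iff.2 (show (H _).Adj (hub true) (vA ⟨0, ha⟩) by simp [H, R]))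
        (h _ _ (by simp [cj, e]))
  refine ⟨W (2 * n + 1), inferInstance, H _, inferInstance, conn ha,
    Fin.cons (Setoid.ker bip) fun j => Setoid.ker (cj j.val), fun i => ?_, fun i j => ?_, ?_⟩
  · refine Fin.cases (irr ha (Or.inl bip_prp)) (fun j => irr ha (Or.inr (cj_nul ?_))) i
    have := j.2; omega
  · refine Fin.cases ?_ (fun i => ?_) i <;> refine Fin.cases ?_ (fun j => ?_) j
    · exact fun _ => rfl
    · rintro ⟨φ, h⟩
      have h : ∀ x y, bip x = bip y ↔ cj j (φ x) = cj j (φ y) := h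
      exact absurd (fun x y e => (h _ _).2 (by simpa using e)) (hnp j φ.symm)
    · rintro ⟨φ, h⟩
      exact absurd (fun x y e => (h _ _).1 e) (hnp i φ)
    rintro ⟨φ, h⟩
    replace h : ∀ x y, cj i x = cj i y ↔ cj j (φ x) = cj j (φ y) := h
    by_contra hij
    have hij' : i.val ≠ j.val := fun e => hij (by rw [Fin.ext e])
    have hi := i.2
    have hj := j.2
    have hn : (1 : ℝ) ≤ n := by exact_mod_cast (by omega : 1 ≤ n)
    have hA : ∀ t, ∃ s, φ (vA t) = vA s := by
      intro t
      have d1 : S (fun _ => 1) (φ (vA t)) = 2 := by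
        rw [← deg, φ.degree_eq, deg]; simp [S]; norm_num
      have d2 : 6 ≤ S (fun _ => 1) (φ (hub true)) := by
        rw [← deg, φ.degree_eq, deg]; simp [S]; linarith
      have d3 := φ.map_adj_iff.2 (show (H _).Adj (hub true) (vA t) by simp [H, R])
      revert d1 d2 d3
      rcases φ (vA t) with (x | x) | ⟨x, _ | _⟩ | ⟨x, b⟩ <;>
        rcases φ (hub true) with (y | y) | ⟨y, _ | _⟩ | ⟨y, e⟩ <;> simp [S, H, R] <;> norm_num
    choose σ hσ using hA
    have hinj : Function.Injective σ := fun s t e => by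
      exact Sum.inr.inj (Sum.inl.inj (φ.injective ((hσ s).trans (e ▸ (hσ t).symm))))
    have hb := Finite.injective_iff_bijective.1 hinj
    have key : nA (cj (a := 2 * n + 1) i) 1 =
        nA (cj (a := 2 * n + 1) j) (cj j (vA (σ (Fin.last _)))) := by
      refine card_bijective σ hb fun t => ?_
      have := h (vA t) (vA (Fin.last _))
      simp only [hσ] at this
      simp only [mem_filter, mem_univ, true_and, ← this]
      rw [show cj i (vA (Fin.last (2 * n))) = 1 by simp [cj]; omega]
    have a1 := (nA_cj (a := 2 * n + 1) (j := i) (by omega)).1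
    have a2 := (nA_cj (a := 2 * n + 1) (j := j) (by omega)).1
    have a3 := card_two fun t : Fin (2 * n + 1) => cj i (vA t)
    have a4 := card_two fun t : Fin (2 * n + 1) => cj j (vA t)
    generalize cj j (vA (σ (Fin.last _))) = z at key
    revert z
    rw [Fin.forall_fin_two]
    unfold nA at *
    omega
  · intro P hP
    rcases classify ha hP.1 with e | ⟨c, hc, h | h⟩
    · have := hP.2 _ (irr ha (Or.inl bip_prp)).1 fun x y _ => e x y
      exact ⟨0, SimpleGraph.Iso.refl, fun x y => by rw [← this]; rfl⟩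
    · refine ⟨0, SimpleGraph.Iso.refl, fun x y => ?_⟩
      have k0 : ∀ x, c x = c (hub true) ↔ bip x = 0 := by
        have k1 := fun b i => h (hub b) (vA i) (by simp [H, R])
        have k2 := fun i => h (hub true) (vw i false) (by simp [H, R])
        have k3 := fun i b e => h (vw i b) (vx i e) (by simp [H, R])
        have g : ∀ p q r : Fin 2, p ≠ q → r ≠ q → p = r := by decide
        rintro ((x | x) | ⟨x, _ | _⟩ | ⟨x, b⟩) <;> simp only [bip]
        · exact iff_of_true (g _ _ _ (k1 x ⟨0, ha⟩) (k1 true ⟨0, ha⟩)) trivial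
        · exact iff_of_false (k1 true x).symm (by decide)
        · exact iff_of_false (k2 x).symm (by decide)
        · exact iff_of_false (fun e => k2 x (e.symm.trans (g _ _ _ (k3 x true true)
            (k3 x false true)))) (by decide)
        · exact iff_of_true (g _ _ _ (k3 x false b).symm (k2 x)) trivial
      have := k0 x; have := k0 y
      rw [hc]
      change _ ↔ bip x = bip y
      omega
    · have a3 := card_two fun t : Fin (2 * n + 1) => c (vA t)
      by_cases e : nA c 0 ≤ n
      · obtain ⟨φ, hφ⟩ := same_nul h (cj_nul (j := nA c 0) (by omega)) (nA_cj (by omega)).1.symm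
        exact ⟨Fin.succ ⟨nA c 0, by omega⟩, φ, fun x y => by
          change _ ↔ cj _ (φ x) = cj _ (φ y)
          rw [hc, hφ, hφ]⟩
      · have f : ∀ p l : Fin 2, p.rev = l ↔ p = l.rev := by decide
        have h' : Nul fun x => (c x).rev := ⟨by simpa using h.1, by simpa using h.2.1,
          by simpa using h.2.2.1, fun l => by simpa [nA, nW, f] using h.2.2.2 l.rev⟩
        have e' : nA (fun x => (c x).rev) 0 ≤ n := by
          simp only [nA, f, show (0 : Fin 2).rev = 1 from rfl] at *
          omega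
        obtain ⟨φ, hφ⟩ := same_nul h' (cj_nul (j := nA (fun x => (c x).rev) 0) (by omega))
          (nA_cj (by omega)).1.symm
        exact ⟨Fin.succ ⟨_, Nat.lt_succ_of_le e'⟩, φ, fun x y => by
          change _ ↔ cj _ (φ x) = cj _ (φ y)
          rw [hc, hφ, hφ, Fin.rev_inj]⟩

end Pool.Agent.Results.MP_48b99b_co.Full
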